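import Mathlib

/-!
Smooth (and Lipschitz) reductions between the ranges of two null sequences of positive reals.
-/

open Filter Topology Set

namespace Q214.LP

/-- the derivatives of the smooth transition function are bounded -/
theorem S_bound (k : ℕ) : ∃ M : ℝ, 0 < M ∧ ∀ t, ‖iteratedDeriv k Real.smoothTransition t‖ ≤ M := by
  have hc : Continuous (iteratedDeriv k Real.smoothTransition) :=
    (Real.smoothTransition.contDiff (n := ⊤)).continuous_iteratedDeriv k (by exact_mod_cast le_top)
  obtain ⟨M, hM⟩ := (isCompact_Icc (a := (-1 : ℝ)) (b := 2)).exists_bound_of_continuousOn hc.continuousOn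
  refine ⟨max M 1, by positivity, fun t => ?_⟩
  by_cases ht : t ∈ Icc (-1 : ℝ) 2
  · exact (hM t ht).trans (le_max_left _ _)
  · have hout : t < 0 ∨ 1 < t := by
      by_contra hcon
      push Not at hcon
      exact ht ⟨by linarith [hcon.1], by linarith [hcon.2]⟩
    rcases Nat.eq_zero_or_pos k with hk | hk
    · rw [hk, iteratedDeriv_zero]
      refine le_trans ?_ (le_max_right _ _)
      rw [Real.norm_eq_abs, abs_of_nonneg (Real.smoothTransition.nonneg t)]
      exact Real.smoothTransition.le_one t
    · have hz : iteratedDeriv k Real.smoothTransition t = 0 := by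
        rcases hout with h | h
        · have he : Real.smoothTransition =ᶠ[𝓝 t] fun _ => (0 : ℝ) := by
            filter_upwards [gt_mem_nhds h] with s hs
            exact Real.smoothTransition.zero_of_nonpos hs.le
          rw [he.iteratedDeriv_eq k, iteratedDeriv_const, if_neg hk.ne']
        · have he : Real.smoothTransition =ᶠ[𝓝 t] fun _ => (1 : ℝ) := by
            filter_upwards [lt_mem_nhds h] with s hs
            exact Real.smoothTransition.one_of_one_le hs.le
          rw [he.iteratedDeriv_eq k, iteratedDeriv_const, if_neg hk.ne']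
      rw [hz, norm_zero]
      positivity

/-- one piece -/
noncomputable def pc (c r s : ℝ) (t : ℝ) : ℝ := c * Real.smoothTransition (r * (t - s))

theorem pc_contDiff (c r s : ℝ) {n : ℕ∞} : ContDiff ℝ n (pc c r s) := by
  unfold pc
  exact contDiff_const.mul (Real.smoothTransition.contDiff.comp
    (contDiff_const.mul (contDiff_id.sub contDiff_const)))

theorem pc_iter (c r s : ℝ) (k : ℕ) (t : ℝ) :
    iteratedDeriv k (pc c r s) t = c * (r ^ k * iteratedDeriv k Real.smoothTransition (r * (t - s))) := by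
  have h1 : (fun z : ℝ => Real.smoothTransition (r * (z - s))) = fun z => (fun w => Real.smoothTransition (r * w)) (z - s) := rfl
  have h2 : iteratedDeriv k (pc c r s) t = c * iteratedDeriv k (fun z => Real.smoothTransition (r * (z - s))) t := by
    unfold pc
    rw [iteratedDeriv_const_mul]
    exact ((Real.smoothTransition.contDiff (n := k)).comp
      (contDiff_const.mul (contDiff_id.sub contDiff_const))).contDiffAt
  have h3 := congrFun (iteratedDeriv_comp_sub_const k (fun w => Real.smoothTransition (r * w)) s) t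
  have h4 := iteratedDeriv_comp_const_mul (Real.smoothTransition.contDiff (n := k)) r
  rw [h2, h1]
  simp only at h3 ⊢
  rw [h3, h4]

section

variable {a a' : ℕ → ℝ} (ha : StrictAnti a) (ha' : StrictAnti a') (h0 : Tendsto a atTop (𝓝 0))
  (h0' : Tendsto a' atTop (𝓝 0))

noncomputable def gg (a a' : ℕ → ℝ) (n : ℕ) : ℝ → ℝ :=
  pc (a' n - a' (n + 1)) (a n - a (n + 1))⁻¹ (a (n + 1))

include ha in
theorem gg_one {n : ℕ} {t : ℝ} (ht : a n ≤ t) : gg a a' n t = a' n - a' (n + 1) := by
  unfold gg pc
  have h : 0 < a n - a (n + 1) := sub_pos.2 (ha (Nat.lt_succ_self n))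
  rw [Real.smoothTransition.one_of_one_le, mul_one]
  rw [inv_mul_eq_div, le_div_iff₀ h]
  linarith

include ha in
theorem gg_zero {n : ℕ} {t : ℝ} (ht : t ≤ a (n + 1)) : gg a a' n t = 0 := by
  unfold gg pc
  have h : 0 < a n - a (n + 1) := sub_pos.2 (ha (Nat.lt_succ_self n))
  rw [Real.smoothTransition.zero_of_nonpos, mul_zero]
  exact mul_nonpos_of_nonneg_of_nonpos (by positivity) (by linarith)

include h0' in
theorem hasSum_tail (m : ℕ) : Tendsto (fun k => ∑ i ∈ Finset.range k, (a' (i + m) - a' (i + m + 1)))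
    atTop (𝓝 (a' m)) := by
  have h1 : ∀ k, ∑ i ∈ Finset.range k, (a' (i + m) - a' (i + m + 1)) = a' m - a' (k + m) := by
    intro k
    induction k with
    | zero => simp
    | succ k ih =>
      rw [Finset.sum_range_succ, ih, show k + 1 + m = k + m + 1 by ring]
      ring
  simp only [h1]
  have h2 := (tendsto_add_atTop_iff_nat (f := a') m).2 h0'
  have := (tendsto_const_nhds (x := a' m)).sub h2
  simpa using this

noncomputable def ff (a a' : ℕ → ℝ) (t : ℝ) : ℝ := ∑' n, gg a a' n t + Real.smoothTransition (t - a 0)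

variable (hs : ∀ k : ℕ, Summable fun n => (a' n - a' (n + 1)) * ((a n - a (n + 1))⁻¹) ^ k)

include ha ha' h0 h0' hs

theorem pos_a (n : ℕ) : 0 < a n := by
  have := ha.antitone.le_of_tendsto h0 (n + 1)
  exact this.trans_lt (ha (Nat.lt_succ_self n))

theorem gg_summable (t : ℝ) : Summable fun n => gg a a' n t := by
  refine Summable.of_norm_bounded (g := fun n => (a' n - a' (n + 1)) * ((a n - a (n + 1))⁻¹) ^ 0)
    (hs 0) (fun n => ?_)
  unfold gg pc
  have h : 0 ≤ a' n - a' (n + 1) := (sub_pos.2 (ha' (Nat.lt_succ_self n))).le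
  rw [norm_mul, Real.norm_eq_abs, abs_of_nonneg h, Real.norm_eq_abs,
    abs_of_nonneg (Real.smoothTransition.nonneg _), pow_zero]
  exact mul_le_mul_of_nonneg_left (Real.smoothTransition.le_one _) h

theorem ff_smooth : ContDiff ℝ (⊤ : ℕ∞) (ff a a') := by
  unfold ff
  refine ContDiff.add ?_ (Real.smoothTransition.contDiff.comp (contDiff_id.sub contDiff_const))
  choose M hM0 hM using S_bound
  refine contDiff_tsum (v := fun k n => (a' n - a' (n + 1)) * ((a n - a (n + 1))⁻¹) ^ k * M k)
    (fun n => pc_contDiff _ _ _) (fun k _ => (hs k).mul_right _) (fun k n t _ => ?_)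
  rw [norm_iteratedFDeriv_eq_norm_iteratedDeriv]
  unfold gg
  rw [pc_iter, norm_mul, norm_mul]
  have h : 0 ≤ a' n - a' (n + 1) := (sub_pos.2 (ha' (Nat.lt_succ_self n))).le
  have h2 : 0 < a n - a (n + 1) := (sub_pos.2 (ha (Nat.lt_succ_self n)))
  rw [Real.norm_eq_abs, abs_of_nonneg h, norm_pow, Real.norm_eq_abs (a n - a (n + 1))⁻¹,
    abs_of_nonneg (by positivity), mul_assoc]
  apply mul_le_mul_of_nonneg_left _ h
  exact mul_le_mul_of_nonneg_left (hM k _) (by positivity)

theorem ff_nonpos {t : ℝ} (ht : t ≤ 0) : ff a a' t = 0 := by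
  unfold ff
  have h1 : ∀ n, gg a a' n t = 0 := fun n =>
    gg_zero ha (ht.trans (pos_a ha ha' h0 h0' hs (n + 1)).le)
  rw [tsum_congr h1, tsum_zero, Real.smoothTransition.zero_of_nonpos, add_zero]
  have := pos_a ha ha' h0 h0' hs 0
  linarith

/-- the value on a piece -/
theorem tsum_piece {m : ℕ} {t : ℝ} (h1 : a (m + 1) ≤ t) (h2 : t ≤ a m) :
    ∑' n, gg a a' n t = gg a a' m t + a' (m + 1) := by
  have hsum := gg_summable ha ha' h0 h0' hs t
  rw [← hsum.sum_add_tsum_nat_add (m + 1), Finset.sum_range_succ]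
  have e1 : ∑ n ∈ Finset.range m, gg a a' n t = 0 := by
    apply Finset.sum_eq_zero
    intro n hn
    rw [Finset.mem_range] at hn
    exact gg_zero ha (h2.trans (ha.antitone (by omega)))
  have e2 : ∀ i, gg a a' (i + (m + 1)) t = a' (i + (m + 1)) - a' (i + (m + 1) + 1) := fun i =>
    gg_one ha ((ha.antitone (by omega)).trans h1)
  rw [e1, zero_add]
  congr 1
  rw [tsum_congr e2]
  have hsum2 := (summable_nat_add_iff (m + 1)).2 hsum
  have hsum3 : Summable fun i => a' (i + (m + 1)) - a' (i + (m + 1) + 1) := by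
    refine hsum2.congr (fun i => e2 i)
  exact tendsto_nhds_unique hsum3.hasSum.tendsto_sum_nat (hasSum_tail h0' (m + 1))

theorem ff_gt {t : ℝ} (ht : a 0 < t) : a' 0 < ff a a' t := by
  unfold ff
  have hsum := gg_summable ha ha' h0 h0' hs t
  have e2 : ∀ i, gg a a' i t = a' (i + 0) - a' (i + 0 + 1) := fun i =>
    gg_one ha ((ha.antitone (by omega)).trans ht.le)
  have h3 : ∑' n, gg a a' n t = a' 0 := by
    rw [tsum_congr e2]
    have hsum3 : Summable fun i => a' (i + 0) - a' (i + 0 + 1) := hsum.congr (fun i => e2 i)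
    exact tendsto_nhds_unique hsum3.hasSum.tendsto_sum_nat (hasSum_tail h0' 0)
  rw [h3]
  have := Real.smoothTransition.pos_of_pos (sub_pos.2 ht)
  linarith

theorem ff_le_piece {t : ℝ} (ht : t ≤ a 0) : ff a a' t = ∑' n, gg a a' n t := by
  unfold ff
  rw [Real.smoothTransition.zero_of_nonpos (by linarith), add_zero]

theorem ff_at (m : ℕ) : ff a a' (a m) = a' m := by
  rw [ff_le_piece ha ha' h0 h0' hs (ha.antitone (Nat.zero_le m)),
    tsum_piece ha ha' h0 h0' hs (ha.antitone (Nat.le_succ m)) le_rfl, gg_one ha le_rfl]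
  ring

theorem ff_open {m : ℕ} {t : ℝ} (h1 : a (m + 1) < t) (h2 : t < a m) :
    a' (m + 1) < ff a a' t ∧ ff a a' t < a' m := by
  rw [ff_le_piece ha ha' h0 h0' hs (h2.le.trans (ha.antitone (Nat.zero_le m))),
    tsum_piece ha ha' h0 h0' hs h1.le h2.le]
  unfold gg pc
  have h : 0 < a' m - a' (m + 1) := sub_pos.2 (ha' (Nat.lt_succ_self m))
  have h3 : 0 < a m - a (m + 1) := sub_pos.2 (ha (Nat.lt_succ_self m))
  have h4 : 0 < (a m - a (m + 1))⁻¹ * (t - a (m + 1)) :=
    mul_pos (inv_pos.2 h3) (sub_pos.2 h1)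
  have h5 : (a m - a (m + 1))⁻¹ * (t - a (m + 1)) < 1 := by
    rw [inv_mul_eq_div, div_lt_one h3]
    linarith
  have h6 := Real.smoothTransition.pos_of_pos h4
  have h7 := Real.smoothTransition.lt_one_of_lt_one h5
  constructor
  · have := mul_pos h h6
    linarith
  · have := mul_lt_mul_of_pos_left h7 h
    linarith

theorem ff_preimage : range a = ff a a' ⁻¹' range a' := by
  classical
  ext t
  constructor
  · rintro ⟨m, rfl⟩
    exact ⟨m, (ff_at ha ha' h0 h0' hs m).symm⟩
  · rintro ⟨k, hk⟩
    have hpos : 0 < a' k := by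
      have := ha'.antitone.le_of_tendsto h0' (k + 1)
      exact this.trans_lt (ha' (Nat.lt_succ_self k))
    have ht0 : 0 < t := by
      by_contra hc
      push Not at hc
      rw [ff_nonpos ha ha' h0 h0' hs hc] at hk
      linarith
    have ht1 : t ≤ a 0 := by
      by_contra hc
      push Not at hc
      have h1 := ff_gt ha ha' h0 h0' hs hc
      have h2 := ha'.antitone (Nat.zero_le k)
      linarith
    -- the piece of `t`
    have hex : ∃ m, a m < t := (h0.eventually (gt_mem_nhds ht0)).exists
    have hm1 := Nat.find_spec hex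
    have hm0 : Nat.find hex ≠ 0 := by
      intro h
      rw [h] at hm1
      linarith
    obtain ⟨m, hm⟩ := Nat.exists_eq_succ_of_ne_zero hm0
    rw [hm] at hm1
    have hm2 : t ≤ a m := by
      have := Nat.find_min hex (m := m) (by omega)
      push Not at this
      exact this
    rcases hm2.lt_or_eq with h | h
    · obtain ⟨h1, h2⟩ := ff_open ha ha' h0 h0' hs hm1 h
      rw [← hk] at h1 h2
      have h3 := ha'.lt_iff_gt.1 h1
      have h4 := ha'.lt_iff_gt.1 h2
      omega
    · exact ⟨m, h.symm⟩

theorem ff_lipschitz : ∃ K : NNReal, LipschitzWith K (ff a a') := by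
  have hsm := ff_smooth ha ha' h0 h0' hs
  have hd : Continuous (deriv (ff a a')) := hsm.continuous_deriv (by exact_mod_cast le_top)
  obtain ⟨M, hM⟩ := (isCompact_Icc (a := (-1 : ℝ)) (b := a 0 + 2)).exists_bound_of_continuousOn
    hd.continuousOn
  refine ⟨M.toNNReal, lipschitzWith_of_nnnorm_deriv_le
    (hsm.differentiable (by simp)) (fun t => NNReal.coe_le_coe.1 ?_)⟩
  rw [coe_nnnorm, Real.coe_toNNReal']
  by_cases ht : t ∈ Icc (-1 : ℝ) (a 0 + 2)
  · exact (hM t ht).trans (le_max_left _ _)
  · refine le_trans (le_of_eq ?_) (le_max_right _ _)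
    have hout : t < 0 ∨ a 0 + 1 < t := by
      by_contra hcon
      push Not at hcon
      exact ht ⟨by linarith [hcon.1], by linarith [hcon.2]⟩
    rcases hout with h | h
    · have he : ff a a' =ᶠ[𝓝 t] fun _ => (0 : ℝ) := by
        filter_upwards [gt_mem_nhds h] with s hs'
        exact ff_nonpos ha ha' h0 h0' hs hs'.le
      rw [he.deriv_eq, deriv_const, norm_zero]
    · have he : ff a a' =ᶠ[𝓝 t] fun _ => (∑' n, (a' n - a' (n + 1)) + 1 : ℝ) := by
        filter_upwards [lt_mem_nhds h] with s hs'
        unfold ff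
        rw [Real.smoothTransition.one_of_one_le (by linarith)]
        congr 1
        exact tsum_congr fun n => gg_one ha ((ha.antitone (Nat.zero_le n)).trans (by linarith))
      rw [he.deriv_eq, deriv_const, norm_zero]

end

end Q214.LP
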