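import Mathlib
import Pool.Agent.Q214.LP.Smooth

/-!
The null sequences coding subsets of `ω`.
-/

open Filter Topology Set

namespace Q214.LP

open Classical in
noncomputable def cnt (z : Set ℕ) (j : ℕ) : ℕ := ((Finset.range j).filter (· ∈ z)).card

open Classical in
noncomputable def ex (z : Set ℕ) (j : ℕ) : ℕ := 1 + cnt z j + if j ∈ z then j + 2 else 0

def tau (j : ℕ) : ℕ := (2 * j + 1).factorial

noncomputable def V (z : Set ℕ) (j : ℕ) : ℕ := 2 ^ (tau j * ex z j)

noncomputable def u (z : Set ℕ) (n : ℕ) : ℕ := V z (Nat.sqrt n) + n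

noncomputable def aa (z : Set ℕ) (n : ℕ) : ℝ := (1 / 2) ^ u z n

theorem cnt_le (z : Set ℕ) (j : ℕ) : cnt z j ≤ j := by
  classical
  unfold cnt
  exact (Finset.card_filter_le _ _).trans (by simp)

theorem one_le_ex (z : Set ℕ) (j : ℕ) : 1 ≤ ex z j := by unfold ex; omega

theorem ex_le (z : Set ℕ) (j : ℕ) : ex z j ≤ 2 * j + 3 := by
  have := cnt_le z j
  unfold ex
  split_ifs <;> omega

theorem ex_mem {z : Set ℕ} {j : ℕ} (h : j ∈ z) : j + 3 ≤ ex z j := by
  unfold ex
  rw [if_pos h]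
  omega

theorem ex_notMem {z : Set ℕ} {j : ℕ} (h : j ∉ z) : ex z j ≤ j + 1 := by
  have := cnt_le z j
  unfold ex
  rw [if_neg h]
  omega

theorem le_tau (j : ℕ) : 2 * j + 1 ≤ tau j := Nat.self_le_factorial _

theorem tau_succ (j : ℕ) : (2 * j + 3) * tau j ≤ tau (j + 1) := by
  unfold tau
  rw [show 2 * (j + 1) + 1 = (2 * j + 1) + 1 + 1 by ring, Nat.factorial_succ (2 * j + 1 + 1),
    Nat.factorial_succ (2 * j + 1)]
  have h := Nat.factorial_pos (2 * j + 1)
  generalize (2 * j + 1).factorial = F at *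
  exact Nat.mul_le_mul_left _ (Nat.le_mul_of_pos_left _ (by omega))

theorem V_mono (z : Set ℕ) : Monotone (V z) := by
  apply monotone_nat_of_le_succ
  intro j
  unfold V
  apply Nat.pow_le_pow_right (by norm_num)
  calc tau j * ex z j ≤ tau j * (2 * j + 3) := Nat.mul_le_mul_left _ (ex_le z j)
    _ = (2 * j + 3) * tau j := by ring
    _ ≤ tau (j + 1) := tau_succ j
    _ = tau (j + 1) * 1 := by ring
    _ ≤ tau (j + 1) * ex z (j + 1) := Nat.mul_le_mul_left _ (one_le_ex z _)

theorem u_succ (z : Set ℕ) (n : ℕ) : u z n + 1 ≤ u z (n + 1) := by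
  have h := V_mono z (Nat.sqrt_le_sqrt (Nat.le_succ n))
  unfold u
  simp only [Nat.succ_eq_add_one] at h
  omega

theorem aa_pos (z : Set ℕ) (n : ℕ) : 0 < aa z n := by unfold aa; positivity

theorem aa_succ (z : Set ℕ) (n : ℕ) : aa z (n + 1) ≤ aa z n / 2 := by
  unfold aa
  calc (1 / 2 : ℝ) ^ u z (n + 1) ≤ (1 / 2) ^ (u z n + 1) :=
        pow_le_pow_of_le_one (by norm_num) (by norm_num) (u_succ z n)
    _ = _ := by rw [pow_succ]; ring

theorem aa_anti (z : Set ℕ) : StrictAnti (aa z) := by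
  apply strictAnti_nat_of_succ_lt
  intro n
  have h1 := aa_succ z n
  have h2 := aa_pos z n
  linarith

theorem aa_le (z : Set ℕ) (n : ℕ) : aa z n ≤ (1 / 2) ^ n := by
  unfold aa
  exact pow_le_pow_of_le_one (by norm_num) (by norm_num) (by unfold u; omega)

theorem aa_tendsto (z : Set ℕ) : Tendsto (aa z) atTop (𝓝 0) :=
  squeeze_zero (fun n => (aa_pos z n).le) (aa_le z)
    (tendsto_pow_atTop_nhds_zero_of_lt_one (by norm_num) (by norm_num))

/-! ### strict almost inclusion gives flat smooth reductions -/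

theorem cnt_strict {x y : Set ℕ} (h1 : (x \ y).Finite) (h2 : ¬ (y \ x).Finite) :
    ∃ j₀, ∀ j ≥ j₀, ex x j + 1 ≤ ex y j := by
  classical
  obtain ⟨F, hF⟩ := h1.exists_finset_coe
  obtain ⟨D, hD1, hD2⟩ := (Set.not_finite.1 h2 : (y \ x).Infinite).exists_subset_card_eq (F.card + 1)
  refine ⟨F.sup id + D.sup id + 1, fun j hj => ?_⟩
  have hFj : ∀ i ∈ F, i < j := fun i hi => by
    have : i ≤ F.sup id := Finset.le_sup (f := id) hi
    omega
  have hDj : ∀ i ∈ D, i < j := fun i hi => by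
    have : i ≤ D.sup id := Finset.le_sup (f := id) hi
    omega
  have hcnt : cnt x j + 1 ≤ cnt y j := by
    unfold cnt
    have e1 : (Finset.range j).filter (· ∈ x) ⊆ (Finset.range j).filter (· ∈ x ∩ y) ∪ F := by
      intro i hi
      rw [Finset.mem_filter] at hi
      rw [Finset.mem_union, Finset.mem_filter]
      by_cases hy : i ∈ y
      · exact Or.inl ⟨hi.1, hi.2, hy⟩
      · right
        rw [← Finset.mem_coe, hF]
        exact ⟨hi.2, hy⟩
    have e2 : (Finset.range j).filter (· ∈ x ∩ y) ∪ D ⊆ (Finset.range j).filter (· ∈ y) := by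
      intro i hi
      rw [Finset.mem_union, Finset.mem_filter] at hi
      rw [Finset.mem_filter]
      rcases hi with hi | hi
      · exact ⟨hi.1, hi.2.2⟩
      · exact ⟨Finset.mem_range.2 (hDj i hi), (hD1 hi).1⟩
    have e3 : Disjoint ((Finset.range j).filter (· ∈ x ∩ y)) D := by
      rw [Finset.disjoint_left]
      intro i hi hiD
      rw [Finset.mem_filter] at hi
      exact (hD1 hiD).2 hi.2.1
    have c1 := (Finset.card_le_card e1).trans (Finset.card_union_le _ _)
    have c2 := Finset.card_le_card e2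
    rw [Finset.card_union_of_disjoint e3, hD2] at c2
    omega
  unfold ex
  by_cases hx : j ∈ x
  · have hy : j ∈ y := by
      by_contra hy
      have : j ∈ F := by rw [← Finset.mem_coe, hF]; exact ⟨hx, hy⟩
      exact lt_irrefl _ (hFj j this)
    rw [if_pos hx, if_pos hy]
    omega
  · rw [if_neg hx]
    split_ifs <;> omega

theorem u_strict {x y : Set ℕ} (h1 : (x \ y).Finite) (h2 : ¬ (y \ x).Finite) (k : ℕ) :
    ∀ᶠ n in atTop, k * (u x n + 1) + n ≤ u y n := by
  obtain ⟨j₀, hj₀⟩ := cnt_strict h1 h2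
  filter_upwards [eventually_ge_atTop ((j₀ + k) * (j₀ + k))] with n hn
  set j := Nat.sqrt n with hj
  have hj1 : j₀ + k ≤ j := by rw [hj]; exact Nat.le_sqrt.2 hn
  have hn2 : n + 1 ≤ (j + 1) * (j + 1) := Nat.lt_succ_sqrt n
  have htau := le_tau j
  have hV1 : 2 ^ tau j * V x j ≤ V y j := by
    unfold V
    rw [← pow_add]
    apply Nat.pow_le_pow_right (by norm_num)
    have := Nat.mul_le_mul_left (tau j) (hj₀ j (by omega))
    linarith
  have hpow : (j + 1) ≤ 2 ^ j := Nat.lt_two_pow_self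
  have hV2 : n + 1 ≤ V x j := by
    refine hn2.trans ?_
    calc (j + 1) * (j + 1) ≤ 2 ^ j * 2 ^ j := Nat.mul_le_mul hpow hpow
      _ = 2 ^ (j + j) := by rw [pow_add]
      _ ≤ V x j := by
        unfold V
        apply Nat.pow_le_pow_right (by norm_num)
        have := Nat.mul_le_mul_left (tau j) (one_le_ex x j)
        linarith
  have hk : 2 * k ≤ 2 ^ tau j := by
    calc 2 * k ≤ 2 * (j + 1) := by omega
      _ ≤ 2 * 2 ^ j := by omega
      _ = 2 ^ (j + 1) := by rw [pow_succ]; ring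
      _ ≤ 2 ^ tau j := Nat.pow_le_pow_right (by norm_num) (by omega)
  have h3 : k * (V x j + (n + 1)) ≤ 2 ^ tau j * V x j := by
    calc k * (V x j + (n + 1)) ≤ k * (V x j + V x j) := Nat.mul_le_mul_left _ (by omega)
      _ = (2 * k) * V x j := by ring
      _ ≤ _ := Nat.mul_le_mul_right _ hk
  unfold u
  rw [← hj]
  have h4 : k * (V x j + n + 1) = k * (V x j + (n + 1)) := by ring
  omega

theorem strict_summable {x y : Set ℕ} (h1 : (x \ y).Finite) (h2 : ¬ (y \ x).Finite) (k : ℕ) :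
    Summable fun n => (aa y n - aa y (n + 1)) * ((aa x n - aa x (n + 1))⁻¹) ^ k := by
  refine Summable.of_norm_bounded_eventually_nat (g := fun n => (1 / 2 : ℝ) ^ n)
    (summable_geometric_of_lt_one (by norm_num) (by norm_num)) ?_
  filter_upwards [u_strict h1 h2 k] with n hn
  have e1 : 0 < aa y n - aa y (n + 1) := sub_pos.2 (aa_anti y (Nat.lt_succ_self n))
  have e2 : 0 < aa x n - aa x (n + 1) := sub_pos.2 (aa_anti x (Nat.lt_succ_self n))
  rw [Real.norm_eq_abs, abs_of_nonneg (by positivity)]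
  have e3 : (aa x n - aa x (n + 1))⁻¹ ≤ 2 ^ (u x n + 1) := by
    have h3 := aa_succ x n
    have h4 : (1 / 2 : ℝ) ^ (u x n + 1) ≤ aa x n - aa x (n + 1) := by
      rw [pow_succ]
      have : aa x n = (1 / 2) ^ u x n := rfl
      linarith
    calc (aa x n - aa x (n + 1))⁻¹ ≤ ((1 / 2 : ℝ) ^ (u x n + 1))⁻¹ := inv_anti₀ (by positivity) h4
      _ = 2 ^ (u x n + 1) := by rw [← inv_pow]; norm_num
  have e4 : aa y n - aa y (n + 1) ≤ (1 / 2) ^ u y n := by
    have h5 := aa_pos y (n + 1)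
    have : aa y n = (1 / 2) ^ u y n := rfl
    linarith
  calc (aa y n - aa y (n + 1)) * ((aa x n - aa x (n + 1))⁻¹) ^ k
      ≤ (1 / 2) ^ u y n * (2 ^ (u x n + 1)) ^ k :=
        mul_le_mul e4 (pow_le_pow_left₀ (by positivity) e3 k) (by positivity) (by positivity)
    _ ≤ (1 / 2) ^ (k * (u x n + 1) + n) * (2 ^ (u x n + 1)) ^ k := by
        apply mul_le_mul_of_nonneg_right _ (by positivity)
        exact pow_le_pow_of_le_one (by norm_num) (by norm_num) hn
    _ = (1 / 2) ^ n := by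
        rw [pow_add, ← pow_mul, mul_comm (u x n + 1) k]
        have : (1 / 2 : ℝ) ^ (k * (u x n + 1)) * 2 ^ (k * (u x n + 1)) = 1 := by
          rw [← mul_pow]; norm_num
        calc (1 / 2 : ℝ) ^ (k * (u x n + 1)) * (1 / 2) ^ n * 2 ^ (k * (u x n + 1))
            = ((1 / 2 : ℝ) ^ (k * (u x n + 1)) * 2 ^ (k * (u x n + 1))) * (1 / 2) ^ n := by ring
          _ = _ := by rw [this, one_mul]

/-! ### reductions which are Lipschitz at the origin -/

theorem speed {a a' : ℕ → ℝ} (ha : StrictAnti a) (ha' : StrictAnti a')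
    (h0 : Tendsto a atTop (𝓝 0)) (h0' : Tendsto a' atTop (𝓝 0)) (hpos : ∀ n, 0 < a n)
    {f : ℝ → ℝ} (hf : Continuous f) (hred : range a = f ⁻¹' range a') :
    f 0 = 0 ∧ ∃ C, ∀ n, a' (n + C) ≤ f (a n) := by
  have hk : ∀ n, ∃ k, a' k = f (a n) := fun n => by
    have : a n ∈ f ⁻¹' range a' := hred ▸ mem_range_self n
    exact this
  choose k hk using hk
  have hf0 : f 0 = 0 := by
    have h1 : f 0 ∉ range a' := by
      intro h
      have : (0 : ℝ) ∈ range a := by rw [hred]; exact h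
      obtain ⟨n, hn⟩ := this
      exact (hpos n).ne' hn
    have hcl : IsClosed (insert 0 (range a')) := h0'.isCompact_insert_range.isClosed
    have h2 : f 0 ∈ insert 0 (range a') := by
      refine hcl.mem_of_tendsto ((hf.tendsto 0).comp h0) (Eventually.of_forall fun n => ?_)
      exact Or.inr ⟨k n, hk n⟩
    exact h2.resolve_right h1
  refine ⟨hf0, k 0, ?_⟩
  have hstep : ∀ n, k (n + 1) ≤ k n + 1 := by
    intro n
    by_contra hc
    push Not at hc
    have h1 : a' (k n + 1) ∈ Ioo (f (a (n + 1))) (f (a n)) := by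
      rw [← hk, ← hk]
      exact ⟨ha' hc, ha' (Nat.lt_succ_self _)⟩
    obtain ⟨t, ht1, ht2⟩ := intermediate_value_Ioo (ha (Nat.lt_succ_self n)).le hf.continuousOn h1
    have h2 : t ∈ range a := by rw [hred]; exact ⟨_, ht2.symm⟩
    obtain ⟨i, rfl⟩ := h2
    have h3 := ha.lt_iff_gt.1 ht1.1
    have h4 := ha.lt_iff_gt.1 ht1.2
    omega
  have hle : ∀ n, k n ≤ n + k 0 := by
    intro n
    induction n with
    | zero => simp
    | succ n ih => have := hstep n; omega
  intro n
  rw [← hk n]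
  exact ha'.antitone (hle n)

theorem no_reduction {x y : Set ℕ} (h : ¬ (x \ y).Finite) {f : ℝ → ℝ} (hf : Continuous f)
    (hred : range (aa x) = f ⁻¹' range (aa y)) {L δ : ℝ} (hδ : 0 < δ)
    (hL : ∀ t, |t| < δ → |f t - f 0| ≤ L * |t|) : False := by
  obtain ⟨hf0, C, hC⟩ := speed (aa_anti x) (aa_anti y) (aa_tendsto x) (aa_tendsto y) (aa_pos x) hf hred
  obtain ⟨c, hc⟩ := pow_unbounded_of_one_lt L (by norm_num : (1 : ℝ) < 2)
  obtain ⟨N, hN⟩ := eventually_atTop.1 ((aa_tendsto x).eventually (gt_mem_nhds hδ))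
  obtain ⟨j, hj1, hj2⟩ := (Set.not_finite.1 h : (x \ y).Infinite).exists_gt (N + C + c + 1)
  have hsq : N ≤ j * j := by nlinarith
  have h1 := hC (j * j)
  have h2 := hL (aa x (j * j)) (by rw [abs_of_pos (aa_pos x _)]; exact hN _ hsq)
  rw [hf0, sub_zero, abs_of_pos (aa_pos x _)] at h2
  have h3 : aa y (j * j + C) ≤ L * aa x (j * j) := h1.trans ((le_abs_self _).trans h2)
  have h4 : aa y (j * j + C) < 2 ^ c * aa x (j * j) :=
    h3.trans_lt (mul_lt_mul_of_pos_right hc (aa_pos x _))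
  have h5 : u x (j * j) < c + u y (j * j + C) := by
    by_contra hcon
    push Not at hcon
    apply absurd h4
    rw [not_lt]
    unfold aa
    calc (2 : ℝ) ^ c * (1 / 2) ^ u x (j * j) ≤ 2 ^ c * (1 / 2) ^ (c + u y (j * j + C)) := by
          apply mul_le_mul_of_nonneg_left _ (by positivity)
          exact pow_le_pow_of_le_one (by norm_num) (by norm_num) hcon
      _ = (1 / 2) ^ u y (j * j + C) := by
          rw [pow_add, ← mul_assoc, ← mul_pow]; norm_num
  have h6 : Nat.sqrt (j * j) = j := Nat.sqrt_eq j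
  have h7 : Nat.sqrt (j * j + C) = j := Nat.sqrt_add_eq j (by omega)
  unfold u at h5
  rw [h6, h7] at h5
  have h8 : 4 * V y j ≤ V x j := by
    unfold V
    have e1 := ex_mem hj1.1
    have e2 := ex_notMem hj1.2
    have e3 := le_tau j
    calc 4 * 2 ^ (tau j * ex y j) = 2 ^ (2 + tau j * ex y j) := by rw [pow_add]; norm_num
      _ ≤ 2 ^ (tau j * ex x j) := by
        apply Nat.pow_le_pow_right (by norm_num)
        have e4 : tau j * (ex y j + 2) ≤ tau j * ex x j := Nat.mul_le_mul_left _ (by omega)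
        nlinarith
  have h9 : j ≤ V y j := by
    unfold V
    have e1 := one_le_ex y j
    have e3 := le_tau j
    have e4 : j < 2 ^ j := Nat.lt_two_pow_self
    calc j ≤ 2 ^ j := e4.le
      _ ≤ _ := Nat.pow_le_pow_right (by norm_num) (by nlinarith)
  omega

end Q214.LP
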